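import Pool.Agent.Y771.RP.Rel
import Pool.Agent.Y120.RealCh

/-!
# Real analytic functions on a compact interval: complex neighbourhoods and local independence
-/

set_option autoImplicit false
set_option linter.unusedSectionVars false

open Filter Topology Set

namespace Pool.Agent.K7.H63.EP

open Pool.Agent.Y120

/-- local extension -/
theorem local_ext (u : ℝ → ℝ) (t0 : ℝ) (h : AnalyticAt ℝ u t0) :
    ∃ (F : ℂ → ℂ) (r : ℝ), 0 < r ∧ (∀ z ∈ Metric.ball (t0 : ℂ) r, AnalyticAt ℂ F z) ∧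
      ∀ t : ℝ, |t - t0| < r → F (t : ℂ) = ((u t : ℝ) : ℂ) := by
  obtain ⟨p, R, hp⟩ := h
  obtain ⟨ρ, hρ0, hρR⟩ := ENNReal.lt_iff_exists_nnreal_btwn.1 hp.r_pos
  have hρp : 0 < (ρ : ℝ) := by exact_mod_cast hρ0
  have hsum : Summable fun n : ℕ => ‖p n‖ * (ρ : ℝ) ^ n := p.summable_norm_mul_pow (hρR.trans_le hp.r_le)
  set F : ℂ → ℂ := fun z => ∑' n : ℕ, ((p.coeff n : ℝ) : ℂ) * (z - t0) ^ n with hF
  refine ⟨F, ρ, hρp, ?_, ?_⟩
  · have hd : DifferentiableOn ℂ F (Metric.ball (t0 : ℂ) ρ) := by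
      refine Complex.differentiableOn_tsum_of_summable_norm (u := fun n : ℕ => ‖p n‖ * (ρ : ℝ) ^ n) hsum ?_
        Metric.isOpen_ball ?_
      · intro n
        fun_prop
      · intro n w hw
        rw [mem_ball_iff_norm] at hw
        rw [norm_mul, norm_pow, Complex.norm_real]
        refine mul_le_mul ?_ (pow_le_pow_left₀ (norm_nonneg _) hw.le _) (by positivity) (norm_nonneg _)
        rw [p.norm_apply_eq_norm_coef]
    exact fun z hz => hd.analyticAt (Metric.isOpen_ball.mem_nhds hz)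
  · intro t ht
    have hy : (t - t0) ∈ Metric.eball (0 : ℝ) R := by
      refine lt_trans ?_ hρR
      rw [edist_zero_right]
      rw [← Real.norm_eq_abs] at ht
      rw [← ofReal_norm, ← ENNReal.ofReal_coe_nnreal]
      exact (ENNReal.ofReal_lt_ofReal_iff hρp).2 ht
    have h1 := hp.hasSum hy
    rw [add_sub_cancel] at h1
    have h2 : HasSum (fun n : ℕ => ((p.coeff n : ℝ) : ℂ) * (((t : ℂ) - t0) ^ n)) ((u t : ℝ) : ℂ) := by
      have h3 := Complex.hasSum_ofReal.2 h1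
      have h4 : (fun n : ℕ => ((p.coeff n : ℝ) : ℂ) * (((t : ℂ) - t0) ^ n)) =
          fun n : ℕ => (((p n fun _ => t - t0 : ℝ)) : ℂ) := by
        funext n
        rw [p.apply_eq_pow_smul_coeff]
        push_cast [smul_eq_mul]
        ring
      rw [h4]
      exact h3
    exact h2.tsum_eq

/-- extension of a real analytic function on a compact interval to a complex neighbourhood -/
theorem ext (u : ℝ → ℝ) (a b : ℝ) (hab : a ≤ b) (h : AnalyticOnNhd ℝ u (Icc a b)) :
    ∃ F : ℂ → ℂ, (∀ t ∈ Icc a b, AnalyticAt ℂ F (t : ℂ)) ∧ ∀ t ∈ Icc a b, F (t : ℂ) = ((u t : ℝ) : ℂ) := by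
  classical
  have h0 : ∀ s : Icc a b, ∃ (F : ℂ → ℂ) (r : ℝ), 0 < r ∧ (∀ z ∈ Metric.ball ((s : ℝ) : ℂ) r, AnalyticAt ℂ F z) ∧
      ∀ t : ℝ, |t - s| < r → F (t : ℂ) = ((u t : ℝ) : ℂ) := fun s => local_ext u s (h s s.2)
  choose F r hr hF hFu using h0
  obtain ⟨δ, hδ, hδc⟩ := lebesgue_number_lemma_of_metric (s := (fun x : ℝ => (x : ℂ)) '' Icc a b)
    (c := fun s : Icc a b => Metric.ball ((s : ℝ) : ℂ) (r s)) (isCompact_Icc.image Complex.continuous_ofReal)
    (fun s => Metric.isOpen_ball) (by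
      rintro _ ⟨t, ht, rfl⟩
      exact mem_iUnion.2 ⟨⟨t, ht⟩, Metric.mem_ball_self (hr _)⟩)
  have h1 : ∀ t : Icc a b, ∃ s : Icc a b, Metric.ball ((t : ℝ) : ℂ) δ ⊆ Metric.ball ((s : ℝ) : ℂ) (r s) := fun t =>
    hδc _ ⟨t, t.2, rfl⟩
  choose i hi using h1
  -- two local extensions agree
  have hagree : ∀ (t t0 : Icc a b) (z : ℂ), z ∈ Metric.ball ((t : ℝ) : ℂ) δ → z ∈ Metric.ball ((t0 : ℝ) : ℂ) δ →
      |(t : ℝ) - t0| < δ → F (i t) z = F (i t0) z := by
    intro t t0 z hz hz0 htt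
    by_cases hne : t = t0
    · rw [hne]
    have hne' : (t : ℝ) ≠ t0 := fun h => hne (Subtype.ext h)
    have hV : Convex ℝ (Metric.ball ((t : ℝ) : ℂ) δ ∩ Metric.ball ((t0 : ℝ) : ℂ) δ) :=
      (convex_ball _ _).inter (convex_ball _ _)
    set m : ℝ := ((t : ℝ) + t0) / 2 with hm
    have hmem : ∀ s : ℝ, |s - m| < |(t : ℝ) - t0| / 2 → s ∈ Icc a b ∧ |s - t| < δ ∧ |s - t0| < δ := by
      intro s hs
      have h2 := t.2
      have h3 := t0.2
      rcases lt_or_gt_of_ne hne' with h4 | h4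
      · rw [abs_of_neg (show (t : ℝ) - t0 < 0 by linarith)] at hs htt
        rw [abs_lt] at hs
        refine ⟨⟨by linarith [h2.1, hs.1], by linarith [h3.2, hs.2]⟩, ?_, ?_⟩ <;>
        · rw [abs_lt]
          constructor <;> linarith [hs.1, hs.2]
      · rw [abs_of_pos (show 0 < (t : ℝ) - t0 by linarith)] at hs htt
        rw [abs_lt] at hs
        refine ⟨⟨by linarith [h3.1, hs.1], by linarith [h2.2, hs.2]⟩, ?_, ?_⟩ <;>
        · rw [abs_lt]
          constructor <;> linarith [hs.1, hs.2]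
    have hpos : 0 < |(t : ℝ) - t0| / 2 := by
      have := abs_pos.2 (sub_ne_zero.2 hne')
      linarith
    have hball : ∀ (s t' : ℝ), |s - t'| < δ → ((s : ℝ) : ℂ) ∈ Metric.ball ((t' : ℝ) : ℂ) δ := by
      intro s t' hs
      rw [mem_ball_iff_norm, ← Complex.ofReal_sub, Complex.norm_real]
      exact hs
    have hm1 := hmem m (by rw [sub_self, abs_zero]; exact hpos)
    refine AnalyticOnNhd.eqOn_of_preconnected_of_frequently_eq (z₀ := (m : ℂ))
      (U := Metric.ball ((t : ℝ) : ℂ) δ ∩ Metric.ball ((t0 : ℝ) : ℂ) δ)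
      (fun w hw => hF (i t) w (hi t hw.1)) (fun w hw => hF (i t0) w (hi t0 hw.2)) hV.isPreconnected
      ⟨hball _ _ hm1.2.1, hball _ _ hm1.2.2⟩ ?_ ⟨hz, hz0⟩
    have hev : ∀ s : ℝ, |s - m| < |(t : ℝ) - t0| / 2 → F (i t) (s : ℂ) = F (i t0) (s : ℂ) := by
      intro s hs
      obtain ⟨-, h3, h4⟩ := hmem s hs
      have h5 := hi t (hball _ _ h3)
      have h6 := hi t0 (hball _ _ h4)
      rw [mem_ball_iff_norm, ← Complex.ofReal_sub, Complex.norm_real] at h5 h6
      rw [hFu (i t) s h5, hFu (i t0) s h6]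
    -- frequently
    have hfr : ∃ᶠ s : ℝ in 𝓝[≠] m, |s - m| < |(t : ℝ) - t0| / 2 := by
      refine Eventually.frequently ?_
      refine nhdsWithin_le_nhds ?_
      filter_upwards [Metric.ball_mem_nhds m hpos] with s hs
      rwa [Metric.mem_ball, Real.dist_eq] at hs
    have htend : Tendsto (fun s : ℝ => (s : ℂ)) (𝓝[≠] m) (𝓝[≠] (m : ℂ)) := by
      refine tendsto_nhdsWithin_of_tendsto_nhds_of_eventually_within _ ?_ ?_
      · exact (Complex.continuous_ofReal.tendsto m).mono_left nhdsWithin_le_nhds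
      · filter_upwards [self_mem_nhdsWithin] with s hs
        intro h2
        exact hs (Complex.ofReal_injective h2)
    exact htend.frequently (hfr.mono fun s hs => hev s hs)
  -- the extension
  set π : ℂ → Icc a b := fun z => projIcc a b hab z.re with hπ
  refine ⟨fun z => F (i (π z)) z, fun t0 ht0 => ?_, fun t ht => ?_⟩
  · have h2 : AnalyticAt ℂ (F (i ⟨t0, ht0⟩)) (t0 : ℂ) := hF _ _ (hi ⟨t0, ht0⟩ (Metric.mem_ball_self hδ))
    refine h2.congr ?_
    filter_upwards [Metric.ball_mem_nhds (t0 : ℂ) (half_pos hδ)] with z hz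
    rw [mem_ball_iff_norm] at hz
    have h3 : |(π z : ℝ) - t0| ≤ ‖z - t0‖ := by
      have h4 : |(π z : ℝ) - t0| ≤ |z.re - t0| := by
        have h5 : (π z : ℝ) = max a (min b z.re) := by
          rw [hπ, coe_projIcc]
        have h6 : t0 = max a (min b t0) := by
          rw [min_eq_right ht0.2, max_eq_right ht0.1]
        rw [h5]
        nth_rewrite 1 [h6]
        refine (abs_max_sub_max_le_max a _ a _).trans ?_
        rw [sub_self, abs_zero, max_eq_right (abs_nonneg _)]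
        refine (abs_min_sub_min_le_max b z.re b t0).trans ?_
        rw [sub_self, abs_zero, max_eq_right (abs_nonneg _)]
      have h7 : z.re - t0 = (z - t0).re := by simp
      rw [h7] at h4
      exact h4.trans (Complex.abs_re_le_norm _)
    refine (hagree _ _ z ?_ ?_ ?_).symm
    · rw [mem_ball_iff_norm]
      have h8 : z - ((π z : ℝ) : ℂ) = (z - t0) - (((π z : ℝ) - t0 : ℝ) : ℂ) := by
        push_cast
        ring
      rw [h8]
      refine (norm_sub_le _ _).trans_lt ?_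
      rw [Complex.norm_real, Real.norm_eq_abs]
      linarith
    · rw [mem_ball_iff_norm]
      linarith
    · show |(π z : ℝ) - t0| < δ
      linarith
  · have h2 : π (t : ℂ) = ⟨t, ht⟩ := by
      rw [hπ]
      show projIcc a b hab ((t : ℂ)).re = _
      rw [Complex.ofReal_re]
      exact projIcc_of_mem hab ht
    show F (i (π (t : ℂ))) (t : ℂ) = _
    rw [h2]
    refine hFu _ t ?_
    have h5 := hi ⟨t, ht⟩ (Metric.mem_ball_self hδ)
    rwa [mem_ball_iff_norm, ← Complex.ofReal_sub, Complex.norm_real] at h5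

variable {κ : Type} [Fintype κ] [DecidableEq κ]

/-- extension of an independent family -/
theorem family (u : κ → ℝ → ℝ) (a b : ℝ) (hab : a < b) (han : ∀ k, AnalyticOnNhd ℝ (u k) (Icc a b))
    (hf : AInd u a b) :
    ∃ F : κ → ℂ → ℂ, (∀ k, ∀ z ∈ (fun x : ℝ => (x : ℂ)) '' Icc a b, AnalyticAt ℂ (F k) z) ∧
      (∀ z ∈ (fun x : ℝ => (x : ℂ)) '' Icc a b, Pool.Agent.Y124.LocInd F z) ∧
      ∀ k, ∀ t ∈ Icc a b, F k (t : ℂ) = ((u k t : ℝ) : ℂ) := by
  choose F hF hFu using fun k => ext (u k) a b hab.le (han k)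
  have hA : ∀ k, ∀ z ∈ (fun x : ℝ => (x : ℂ)) '' Icc a b, AnalyticAt ℂ (F k) z := by
    rintro k _ ⟨t, ht, rfl⟩
    exact hF k t ht
  refine ⟨F, hA, ?_, hFu⟩
  refine Pool.Agent.Y771.RP.locInd_of F _ (isPreconnected_Icc.image _ Complex.continuous_ofReal.continuousOn) hA
    fun P hP => ?_
  refine Pool.Agent.Y771.RP.ind_of_real F u (Icc a b) hFu (fun Q hQ => ?_) P fun t ht => hP _ ⟨t, ht, rfl⟩
  refine Pool.Agent.Y771.RP.mv_of_exp u (Icc a b) (fun d p hp => ?_) Q hQ
  exact hf d p hp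

end Pool.Agent.K7.H63.EP
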