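import Pool.Agent.K7.H63.EP.Ext
import Pool.Agent.K7.H63.HO.Test
import Pool.Agent.K7.H63.HO.CoreL

/-!
# Integer polynomials in constants and in values of real analytic functions at algebraic points in short intervals
-/

set_option autoImplicit false
set_option linter.unusedSectionVars false

open NumberField

namespace Pool.Agent.K7.H63.EP

open Pool.Agent.Y549.PE Pool.Agent.Y120 Pool.Agent.K7.H63.HO

variable {κ G : Type} [Fintype κ] [DecidableEq κ] [Fintype G] [DecidableEq G]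

/-- the gap theorem -/
theorem gapS {σ : Type} [Fintype σ] [DecidableEq σ] (m n d : ℕ) (u : κ → ℝ → ℝ)
    (a b : ℝ) (hab : a < b) (han : ∀ k, AnalyticOnNhd ℝ (u k) (Set.Icc a b)) (hf : AInd u a b)
    (num den : σ → MvPolynomial (G ⊕ (Fin n × κ)) ℤ) (X : Set (G → ℂ)) (x : (G → ℂ) → (Fin n → ℝ) → σ → ℂ) (N0 : ℝ)
    (hx : ∀ ξ ∈ X, ∀ q : Fin n → ℝ, (∀ l, a ≤ q l ∧ q l ≤ b) → (∀ i, MvPolynomial.aeval
        (Sum.elim ξ fun x : Fin n × κ => ((u x.2 (q x.1) : ℝ) : ℂ)) (num i) =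
      MvPolynomial.aeval (Sum.elim ξ fun x : Fin n × κ => ((u x.2 (q x.1) : ℝ) : ℂ)) (den i) * x ξ q i) ∧
      ‖(∏ i, MvPolynomial.aeval (Sum.elim ξ fun x : Fin n × κ => ((u x.2 (q x.1) : ℝ) : ℂ)) (den i)) ^ d‖ ≤ N0)
    (A δ : ℝ) (hδ : 0 < δ) :
    ∃ (D : ℕ) (B C T₀ : ℝ), 0 ≤ B ∧ 0 ≤ C ∧ 2 ≤ T₀ ∧
      (∀ (P : MvPolynomial σ ℤ) z, (TH659.AQ.elimp d num den P).degreeOf z ≤ D) ∧
      ∀ (F : Type) [Field F] [NumberField F], Module.finrank ℚ F ≤ m → ∀ (ι : F →+* ℝ) (T : ℝ), T₀ ≤ T → ∀ ξ ∈ X,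
      ∀ Y : Fin n → Finset F, (∀ j, ∀ y ∈ Y j, a ≤ ι y ∧ ι y ≤ b ∧ HtLe F T y) →
      (∀ j, ∀ y ∈ Y j, ∀ y' ∈ Y j, |ι y - ι y'| ≤ T ^ (-δ)) →
      ∀ μ : ℝ, 0 < μ → (∀ Q : MvPolynomial G ℤ, (∀ i, Q.degreeOf i ≤ D) →
        (∀ s, |((Q.coeff s : ℤ) : ℝ)| ≤ T ^ (A + 1)) → MvPolynomial.aeval ξ Q ≠ 0 → μ ≤ ‖MvPolynomial.aeval ξ Q‖) →
      ∀ E : Finset (Fin n → F), (∀ q ∈ E, (∀ j, q j ∈ Y j) ∧ ∃ P : MvPolynomial σ ℤ, (∀ i, P.degreeOf i ≤ d) ∧
        (∀ s, |((P.coeff s : ℤ) : ℝ)| ≤ 2 * T ^ A) ∧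
        ‖MvPolynomial.aeval (x ξ fun l => ι (q l)) P‖ ≤ 4 * (μ * T ^ (-B)) ∧
        ∃ e : Fin n → κ → Fin (D + 1), MvPolynomial.aeval ξ (Qe (TH659.AQ.elimp d num den P) e) ≠ 0) →
      (E.card : ℝ) ≤ C * ∑ j, ∏ i ∈ Finset.univ.erase j, ((Y i).card : ℝ) := by
  classical
  obtain ⟨D, K, hK, hbd⟩ := TH659.AQ.elimp_bound (d := d) num den
  obtain ⟨Fc, hFan, hFind, hFu⟩ := family u a b hab han hf
  obtain ⟨B, C, T₀, hB, hC, hT₀, H⟩ := coreL m n (Fintype.card (G → Fin (D + 1))) D (fun _ => Fc)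
    ((fun x : ℝ => (x : ℂ)) '' Set.Icc a b) (isCompact_Icc.image Complex.continuous_ofReal)
    (fun _ y t ht => hFan y t ht) (fun _ t ht => hFind t ht) (A + 1) δ hδ
  refine ⟨D, B + 1, C, max T₀ (max (2 * K) (4 * |N0|)), by linarith, hC, hT₀.trans (le_max_left _ _),
    fun P z => ?_, ?_⟩
  · obtain ⟨M, hM⟩ : ∃ M : ℝ, ∀ s, |((P.coeff s : ℤ) : ℝ)| ≤ M := by
      refine ⟨∑ s ∈ P.support, |((P.coeff s : ℤ) : ℝ)|, fun s => ?_⟩
      by_cases hs : s ∈ P.support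
      · exact Finset.single_le_sum (f := fun s => |((P.coeff s : ℤ) : ℝ)|) (fun _ _ => abs_nonneg _) hs
      · rw [MvPolynomial.notMem_support_iff] at hs
        rw [hs]
        simpa using Finset.sum_nonneg fun s (_ : s ∈ P.support) => abs_nonneg ((P.coeff s : ℤ) : ℝ)
    exact (hbd P M ((abs_nonneg _).trans (hM 0)) hM).1 z
  intro F _ _ hm ι T hT ξ hξ Y hY hYd μ hμ hQ E hE
  have hTT₀ : T₀ ≤ T := (le_max_left _ _).trans hT
  have hTK : 2 * K ≤ T := ((le_max_left _ _).trans (le_max_right _ _)).trans hT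
  have hTN : 4 * |N0| ≤ T := ((le_max_right _ _).trans (le_max_right _ _)).trans hT
  have hTp : 0 < T := by linarith
  set ψ := Fintype.equivFin (G → Fin (D + 1)) with hψ
  set ιc : F →+* ℂ := Complex.ofRealHom.comp ι with hιc
  have hιe : ∀ y : F, ιc y = ((ι y : ℝ) : ℂ) := fun y => rfl
  refine H F hm ιc (fun i => ∏ k, ξ k ^ ((ψ.symm i) k : ℕ)) T hTT₀ Y ?_ ?_ E ?_
  · intro j y hy
    obtain ⟨h1, h2, h3⟩ := hY j y hy
    exact ⟨⟨ι y, ⟨h1, h2⟩, rfl⟩, h3⟩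
  · intro j y hy y' hy'
    rw [hιe, hιe, ← Complex.ofReal_sub, Complex.norm_real]
    exact hYd j y hy y' hy'
  · intro q hq
    obtain ⟨hqY, P, hPd, hPc, hsmall, e, he⟩ := hE q hq
    set R := TH659.AQ.elimp d num den P with hR
    obtain ⟨hRd, hRc⟩ := hbd P (2 * T ^ A) (by positivity) hPc
    have hRc' : ∀ s, |((R.coeff s : ℤ) : ℝ)| ≤ T ^ (A + 1) := by
      intro s
      refine (hRc s).trans ?_
      rw [Real.rpow_add_one hTp.ne']
      have h2 : 0 < T ^ A := by positivity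
      nlinarith
    have hqab : ∀ l, a ≤ ι (q l) ∧ ι (q l) ≤ b := fun l => ⟨(hY l _ (hqY l)).1, (hY l _ (hqY l)).2.1⟩
    refine ⟨hqY, cs D ξ R, cs_degree ξ R, ?_, xs e, ?_, ?_⟩
    · intro s
      by_cases hs : ∃ e : Fin n → κ → Fin (D + 1), xs e = s
      · obtain ⟨e, rfl⟩ := hs
        refine ⟨fun i => ((R.coeff (ex (ψ.symm i) e) : ℤ) : 𝓞 F), fun i φ => ?_, ?_⟩
        · have e1 : ((((R.coeff (ex (ψ.symm i) e) : ℤ) : 𝓞 F)) : F) = ((R.coeff (ex (ψ.symm i) e) : ℤ) : F) := by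
            simp
          rw [e1, map_intCast, Complex.norm_intCast]
          exact hRc' _
        · rw [cs_coeff, aeval_Qe, ← Equiv.sum_comp ψ.symm]
          refine Finset.sum_congr rfl fun i _ => ?_
          congr 1
          have e1 : ((((R.coeff (ex (ψ.symm i) e) : ℤ) : 𝓞 F)) : F) = ((R.coeff (ex (ψ.symm i) e) : ℤ) : F) := by
            simp
          rw [e1, map_intCast]
      · push Not at hs
        refine ⟨fun _ => 0, fun i φ => ?_, ?_⟩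
        · simp only [map_zero, norm_zero]
          positivity
        · rw [cs_coeff' ξ R s hs]
          simp
    · rw [cs_coeff]
      exact he
    · rw [cs_coeff]
      have h1 : μ ≤ ‖MvPolynomial.aeval ξ (Qe R e)‖ := hQ _ (Qe_deg R e) (Qe_coeff R e (by positivity) hRc') he
      have h2 : MvPolynomial.aeval (fun v : Fin n × κ => Fc v.2 (ιc (q v.1))) (cs D ξ R) =
          MvPolynomial.aeval (Sum.elim ξ fun v : Fin n × κ => ((u v.2 (ι (q v.1)) : ℝ) : ℂ)) R := by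
        rw [cs_aeval ξ _ R hRd]
        congr 3
        funext v
        exact hFu v.2 _ (hqab v.1)
      have h3 := hx ξ hξ (fun l => ι (q l)) hqab
      have h4 := TH659.AQ.aeval_elimp num den (x ξ fun l => ι (q l))
        (Sum.elim ξ fun x : Fin n × κ => ((u x.2 (ι (q x.1)) : ℝ) : ℂ)) h3.1 P hPd
      change ‖MvPolynomial.aeval (fun v : Fin n × κ => Fc v.2 (ιc (q v.1))) (cs D ξ R)‖ ≤ _
      rw [h2, hR, h4, norm_mul]
      have hN0 : 0 ≤ N0 := (norm_nonneg _).trans h3.2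
      have h4' : 4 * N0 ≤ T := by rwa [abs_of_nonneg hN0] at hTN
      have h5 : T ^ (-(B + 1)) = T ^ (-B) * T⁻¹ := by
        rw [← Real.rpow_neg_one, ← Real.rpow_add hTp]
        congr 1
        ring
      have h6 : 0 < T ^ (-B) := by positivity
      calc _ ≤ N0 * (4 * (μ * T ^ (-(B + 1)))) := mul_le_mul h3.2 hsmall (norm_nonneg _) hN0
        _ = (4 * N0 * T⁻¹) * (T ^ (-B) * μ) := by rw [h5]; ring
        _ ≤ 1 * (T ^ (-B) * μ) := by
            refine mul_le_mul_of_nonneg_right ?_ (by positivity)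
            rw [mul_inv_le_iff₀ hTp]
            linarith
        _ = T ^ (-B) * μ := one_mul _
        _ ≤ T ^ (-B) * ‖MvPolynomial.aeval ξ (Qe R e)‖ := mul_le_mul_of_nonneg_left h1 h6.le

end Pool.Agent.K7.H63.EP
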